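import Mathlib
import Pool.Agent.W304.OM.Base

set_option autoImplicit false

namespace Pool.Agent.Results.MP_48d738_co.NoOddMultiplier

open scoped Classical in
/-- There is one bridgeless cubic simple graph on ten vertices (the Petersen graph) such that for
every odd `k` it has an edge weighting with values in `{k, 2k}` which is eulerian and admissible
and has no faithful circuit cover. So no odd `k` has the property asked for in Q1. -/
theorem result : ∃ G : SimpleGraph (Fin 10),
    (∀ v : Fin 10, (Finset.univ.filter fun u : Fin 10 => G.Adj v u).card = 3) ∧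
    (∀ a b : Fin 10, G.Adj a b → (G \ SimpleGraph.fromEdgeSet {s(a, b)}).Reachable a b) ∧
    ∀ k : ℕ, Odd k → ∃ w : Sym2 (Fin 10) → ℕ,
      (∀ a b : Fin 10, G.Adj a b → w s(a, b) = k ∨ w s(a, b) = 2 * k) ∧
      (∀ S : Finset (Fin 10), Even (∑ u : Fin 10, ∑ v : Fin 10,
        if (u ∈ S ∧ v ∉ S ∧ G.Adj u v) then w s(u, v) else 0)) ∧
      (∀ (S : Finset (Fin 10)) (a b : Fin 10), a ∈ S → b ∉ S → G.Adj a b →
        2 * w s(a, b) ≤ ∑ u : Fin 10, ∑ v : Fin 10,
          if (u ∈ S ∧ v ∉ S ∧ G.Adj u v) then w s(u, v) else 0) ∧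
      ¬ ∃ (n : ℕ) (x : Fin n → Fin 10) (p : ∀ i, G.Walk (x i) (x i)),
        (∀ i, (p i).IsCycle) ∧
        ∀ a b : Fin 10, G.Adj a b →
          (∑ i : Fin n, if s(a, b) ∈ (p i).edges then 1 else 0) = w s(a, b) := by
  refine ⟨Pool.Agent.W304.OM.Gr, ?_, Pool.Agent.W304.OM.no_bridge, ?_⟩
  · intro v
    rw [← Pool.Agent.W304.OM.deg_three v]
    congr 1
    ext u
    simp only [Finset.mem_filter, Finset.mem_univ, true_and]
    exact Iff.rfl
  intro k hk
  refine ⟨Pool.Agent.W304.OM.wc k, ?_, ?_, ?_, Pool.Agent.W304.OM.no_cover k hk⟩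
  · intro a b hab
    rw [Pool.Agent.W304.OM.wc_mk]
    rcases Pool.Agent.W304.OM.bw_adj a b hab with h | h <;> rw [h]
    · left; ring
    · right; ring
  · intro S
    rw [Pool.Agent.W304.OM.sum_cut_c]
    exact Even.mul_left (Nat.even_iff.mpr (Pool.Agent.W304.OM.cb_ge _).1) _
  · intro S a b ha hb hab
    refine le_of_le_of_eq ?_ (Pool.Agent.W304.OM.sum_cut_c k S _).symm
    rw [Pool.Agent.W304.OM.wc_mk]
    have h1 := Pool.Agent.W304.OM.cb_ge' (fun u => decide (u ∈ S)) a b (by simpa using ha)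
      (by simpa using hb)
    have h2 : Pool.Agent.W304.OM.bw a b ≤ 2 := by
      rcases Pool.Agent.W304.OM.bw_adj a b hab with h | h <;> omega
    calc 2 * (k * Pool.Agent.W304.OM.bw a b) = k * (2 * Pool.Agent.W304.OM.bw a b) := by ring
      _ ≤ k * _ := Nat.mul_le_mul_left k (by omega)

end Pool.Agent.Results.MP_48d738_co.NoOddMultiplier
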